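import Pool.Agent.W836.SH.Stm

/-! # Shifted Heller constant: common part of two frames (S_CP) -/

open scoped Classical

open Pool.Agent.W836.SH

namespace Pool.Agent.W912.SH.CP

/-! ## combinatorics of the 3 x 3 grid -/

def T3 : List (Fin 3 × Fin 3 × Fin 3) :=
  [(0,1,2),(0,2,1),(1,0,2),(1,2,0),(2,0,1),(2,1,0)]

theorem T3_spec : ∀ x ∈ T3, x.1 ≠ x.2.1 ∧ x.1 ≠ x.2.2 ∧ x.2.1 ≠ x.2.2 := by
  decide

def cfg (N : Fin 3 → Fin 3 → Bool) (i j : Fin 3 × Fin 3 × Fin 3) : Bool :=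
  (N i.1 j.1 && (N i.2.1 j.1 && (N i.2.2 j.2.1 && N i.2.2 j.2.2))) ||
  ((N i.1 j.1 && (N i.1 j.2.1 && (N i.1 j.2.2 && (N i.2.1 j.2.1 && N i.2.2 j.2.2)))) ||
  ((N j.1 i.1 && (N j.2.1 i.1 && (N j.2.2 i.1 && (N j.2.1 i.2.1 && N j.2.2 i.2.2)))) ||
  (N i.1 j.1 && (N i.1 j.2.1 && (N i.2.1 j.2.1 && (N i.2.1 j.2.2 && N i.2.2 j.2.2))))))

def bad (N : Fin 3 → Fin 3 → Bool) : Bool := T3.any fun i => T3.any fun j => cfg N i j

def good (N : Fin 3 → Fin 3 → Bool) (a b : Fin 3 × Fin 3 × Fin 3) : Bool :=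
  N a.1 b.1 && (!(N a.1 b.2.1) && (!(N a.1 b.2.2) && (!(N a.2.1 b.1) && !(N a.2.2 b.1))))

def ne (N : Fin 3 → Fin 3 → Bool) : Bool :=
  ((N 0 0 || (N 0 1 || N 0 2)) && ((N 1 0 || (N 1 1 || N 1 2)) && (N 2 0 || (N 2 1 || N 2 2)))) &&
  ((N 0 0 || (N 1 0 || N 2 0)) && ((N 0 1 || (N 1 1 || N 2 1)) && (N 0 2 || (N 1 2 || N 2 2))))

def mk (b00 b01 b02 b10 b11 b12 b20 b21 b22 : Bool) : Fin 3 → Fin 3 → Bool
  | 0, 0 => b00
  | 0, 1 => b01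
  | 0, 2 => b02
  | 1, 0 => b10
  | 1, 1 => b11
  | 1, 2 => b12
  | 2, 0 => b20
  | 2, 1 => b21
  | 2, 2 => b22

def chk (N : Fin 3 → Fin 3 → Bool) : Bool :=
  !(ne N) || ((T3.any fun a => T3.any fun b => good N a b) || bad N)

set_option maxRecDepth 100000 in
theorem chk_all : ∀ b00 b01 b02 b10 b11 b12 b20 b21 b22 : Bool,
    chk (mk b00 b01 b02 b10 b11 b12 b20 b21 b22) = true := by
  decide

theorem eta (N : Fin 3 → Fin 3 → Bool) :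
    N = mk (N 0 0) (N 0 1) (N 0 2) (N 1 0) (N 1 1) (N 1 2) (N 2 0) (N 2 1) (N 2 2) := by
  funext i j
  fin_cases i <;> fin_cases j <;> rfl

theorem comb (N : Fin 3 → Fin 3 → Bool) (hr : ∀ i, ∃ j, N i j = true)
    (hc : ∀ j, ∃ i, N i j = true)
    (hcfg : ∀ i ∈ T3, ∀ j ∈ T3, cfg N i j = false) :
    ∃ a b, N a b = true ∧ (∀ j, j ≠ b → N a j = false) ∧ (∀ i, i ≠ a → N i b = false) := by
  have h := chk_all (N 0 0) (N 0 1) (N 0 2) (N 1 0) (N 1 1) (N 1 2) (N 2 0) (N 2 1) (N 2 2)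
  rw [← eta N] at h
  have hne : ne N = true := by
    unfold ne
    have hrow : ∀ i, (N i 0 || (N i 1 || N i 2)) = true := by
      intro i
      obtain ⟨j, hj⟩ := hr i
      fin_cases j <;> simp_all
    have hcol : ∀ j, (N 0 j || (N 1 j || N 2 j)) = true := by
      intro j
      obtain ⟨i, hi⟩ := hc j
      fin_cases i <;> simp_all
    rw [hrow 0, hrow 1, hrow 2, hcol 0, hcol 1, hcol 2]
    rfl
  have hbad : bad N = false := by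
    unfold bad
    rw [List.any_eq_false]
    intro i hi
    rw [Bool.not_eq_true, List.any_eq_false]
    intro j hj
    rw [Bool.not_eq_true]
    exact hcfg i hi j hj
  unfold chk at h
  rw [hne, hbad] at h
  simp only [Bool.not_true, Bool.or_false, Bool.false_or] at h
  rw [List.any_eq_true] at h
  obtain ⟨a, ha, h⟩ := h
  rw [List.any_eq_true] at h
  obtain ⟨b, hb, h⟩ := h
  obtain ⟨ha1, ha2, ha3⟩ := T3_spec a ha
  obtain ⟨hb1, hb2, hb3⟩ := T3_spec b hb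
  have hcov : ∀ x y z w : Fin 3, x ≠ y → x ≠ z → y ≠ z → w ≠ x → w = y ∨ w = z := by decide
  unfold good at h
  simp only [Bool.and_eq_true, Bool.not_eq_true'] at h
  obtain ⟨h1, h2, h3, h4, h5⟩ := h
  refine ⟨a.1, b.1, h1, ?_, ?_⟩
  · intro j hj
    rcases hcov _ _ _ j hb1 hb2 hb3 hj with h | h
    · rw [h]; exact h2
    · rw [h]; exact h3
  · intro i hi
    rcases hcov _ _ _ i ha1 ha2 ha3 hi with h | h
    · rw [h]; exact h4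
    · rw [h]; exact h5

/-! ## frames -/

section

variable {ι : Type} {U : Finset (ι → ℝ)} {s : ι} {P : Finset ι} {φ ψ : ι → Fin 3} {σ ρ : ι → ℝ}

theorem pm_sq {x : ℝ} (h : pm x) : x * x = 1 := by
  rcases h with h | h <;> rw [h] <;> norm_num

theorem pm_hf {x a : ℝ} (h : pm x) (ha : hf a) : hf (x * a) := by
  rcases h with h | h <;> rcases ha with ha | ha <;> rw [h, ha]
  · left; norm_num
  · right; norm_num
  · right; norm_num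
  · left; norm_num

theorem pm_mul {x y : ℝ} (h : pm x) (ha : pm y) : pm (x * y) := by
  rcases h with h | h <;> rcases ha with ha | ha <;> rw [h, ha]
  · left; norm_num
  · right; norm_num
  · right; norm_num
  · left; norm_num

theorem hf_neg {a : ℝ} (ha : hf a) : hf (-a) := by
  rcases ha with ha | ha <;> rw [ha]
  · right; norm_num
  · left; norm_num

theorem hf_half : hf (1 / 2) := Or.inl rfl

theorem frame_get (hF : Frame U s P φ σ) {i1 i2 i3 : Fin 3} (h12 : i1 ≠ i2) (h13 : i1 ≠ i3)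
    (h23 : i2 ≠ i3) (e0 e1 e2 e3 : ℝ) (h0 : hf e0) (h1 : hf e1) (h2 : hf e2) (h3 : hf e3) :
    ∃ u ∈ U, u s = e0 ∧ (∀ p ∈ P, φ p = i1 → u p = σ p * e1) ∧
      (∀ p ∈ P, φ p = i2 → u p = σ p * e2) ∧ (∀ p ∈ P, φ p = i3 → u p = σ p * e3) := by
  obtain ⟨u, hu, hus, hup⟩ := hF.2.2 e0 (fun q => if q = i1 then e1 else if q = i2 then e2 else e3)
    h0 (by intro q; split_ifs <;> assumption)
  refine ⟨u, hu, hus, ?_, ?_, ?_⟩
  · intro p hp h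
    rw [hup p hp, h]
    simp
  · intro p hp h
    rw [hup p hp, h]
    simp [h12.symm]
  · intro p hp h
    rw [hup p hp, h]
    simp [h13.symm, h23.symm]

theorem k_false (h1 : S_APD) (hU : TS U) (hφ : Frame U s P φ σ) (hψ : Frame U s P ψ ρ)
    {i1 i2 i3 j1 j2 j3 : Fin 3} (hi12 : i1 ≠ i2) (hi13 : i1 ≠ i3) (hi23 : i2 ≠ i3)
    (hj12 : j1 ≠ j2) (hj13 : j1 ≠ j3) (hj23 : j2 ≠ j3) {p q r u : ι}
    (hp : p ∈ P) (hq : q ∈ P) (hr : r ∈ P) (hu : u ∈ P)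
    (hp1 : φ p = i1) (hp2 : ψ p = j1) (hq1 : φ q = i2) (hq2 : ψ q = j1)
    (hr1 : φ r = i3) (hr2 : ψ r = j2) (hu1 : φ u = i3) (hu2 : ψ u = j3) : False := by
  have σp := hφ.1 p hp
  have σq := hφ.1 q hq
  have σr := hφ.1 r hr
  have σu := hφ.1 u hu
  have ρp := hψ.1 p hp
  have ρq := hψ.1 q hq
  have ρr := hψ.1 r hr
  have ρu := hψ.1 u hu
  obtain ⟨z, hz, hzs, hz1, hz2, hz3⟩ := frame_get hψ hj12 hj13 hj23 (1 / 2) (1 / 2)
    (ρ r * (1 / 2)) (-(ρ u * (σ u * (σ r * (1 / 2))))) hf_half hf_half (pm_hf ρr hf_half)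
    (hf_neg (pm_hf ρu (pm_hf σu (pm_hf σr hf_half))))
  obtain ⟨z', hz', hzs', hz1', hz2', hz3'⟩ := frame_get hψ hj12 hj13 hj23 (-(1 / 2)) (-(1 / 2))
    (ρ r * (1 / 2)) (-(ρ u * (σ u * (σ r * (1 / 2))))) (hf_neg hf_half) (hf_neg hf_half)
    (pm_hf ρr hf_half) (hf_neg (pm_hf ρu (pm_hf σu (pm_hf σr hf_half))))
  have er : z r = 1 / 2 := by
    rw [hz2 r hr hr2]; linear_combination (1 / 2) * pm_sq ρr
  have er' : z' r = 1 / 2 := by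
    rw [hz2' r hr hr2]; linear_combination (1 / 2) * pm_sq ρr
  have eu : z u = -(σ u * σ r * (1 / 2)) := by
    rw [hz3 u hu hu2]; linear_combination (-(σ u * σ r * (1 / 2))) * pm_sq ρu
  have eu' : z' u = -(σ u * σ r * (1 / 2)) := by
    rw [hz3' u hu hu2]; linear_combination (-(σ u * σ r * (1 / 2))) * pm_sq ρu
  refine h1 ι U s p q r u (σ u * σ r) z z' hU (pm_mul σu σr) ?_ hz hz' ?_ ?_ ?_ ?_ ?_ ?_ ?_ ?_ ?_ ?_
  · intro a b c d ha hb hc hd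
    obtain ⟨v, hv, hvs, hv1, hv2, hv3⟩ := frame_get hφ hi12 hi13 hi23 a (σ p * b) (σ q * c)
      (σ r * d) ha (pm_hf σp hb) (pm_hf σq hc) (pm_hf σr hd)
    refine ⟨v, hv, hvs, ?_, ?_, ?_, ?_⟩
    · rw [hv1 p hp hp1]; linear_combination b * pm_sq σp
    · rw [hv2 q hq hq1]; linear_combination c * pm_sq σq
    · rw [hv3 r hr hr1]; linear_combination d * pm_sq σr
    · rw [hv3 u hu hu1]; ring
  · rw [hzs]; exact hf_half
  · rw [hz1 p hp hp2]; exact pm_hf ρp hf_half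
  · rw [hz1 q hq hq2]; exact pm_hf ρq hf_half
  · rw [er]; exact hf_half
  · rw [hzs, hzs']
  · rw [hz1 p hp hp2, hz1' p hp hp2]; ring
  · rw [hz1 q hq hq2, hz1' q hq hq2]; ring
  · rw [er, er']
  · rw [eu, er]
  · rw [eu', er]

theorem fork_false (h2 : S_FORK) (hU : TS U) (hφ : Frame U s P φ σ) (hψ : Frame U s P ψ ρ)
    {i1 i2 i3 j1 j2 j3 : Fin 3} (hi12 : i1 ≠ i2) (hi13 : i1 ≠ i3) (hi23 : i2 ≠ i3)
    (hj12 : j1 ≠ j2) (hj13 : j1 ≠ j3) (hj23 : j2 ≠ j3) {a x y b c : ι}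
    (ha : a ∈ P) (hx : x ∈ P) (hy : y ∈ P) (hb : b ∈ P) (hc : c ∈ P)
    (ha1 : φ a = i1) (ha2 : ψ a = j1) (hx1 : φ x = i1) (hx2 : ψ x = j2)
    (hy1 : φ y = i1) (hy2 : ψ y = j3) (hb1 : φ b = i2) (hb2 : ψ b = j2)
    (hc1 : φ c = i3) (hc2 : ψ c = j3) : False := by
  have σa := hφ.1 a ha
  have σx := hφ.1 x hx
  have σy := hφ.1 y hy
  have σb := hφ.1 b hb
  have σc := hφ.1 c hc
  have ρa := hψ.1 a ha
  have ρx := hψ.1 x hx
  have ρy := hψ.1 y hy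
  have ρb := hψ.1 b hb
  have ρc := hψ.1 c hc
  refine h2 ι U s a x y b c (σ x * σ a) (σ y * σ a) (ρ x * ρ b) (ρ y * ρ c) hU
    (pm_mul σx σa) (pm_mul σy σa) (pm_mul ρx ρb) (pm_mul ρy ρc) ?_ ?_
  · intro e0 e1 e2 e3 h0 h1 h2 h3
    obtain ⟨v, hv, hvs, hv1, hv2, hv3⟩ := frame_get hφ hi12 hi13 hi23 e0 (σ a * e1) (σ b * e2)
      (σ c * e3) h0 (pm_hf σa h1) (pm_hf σb h2) (pm_hf σc h3)
    refine ⟨v, hv, hvs, ?_, ?_, ?_, ?_, ?_⟩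
    · rw [hv1 a ha ha1]; linear_combination e1 * pm_sq σa
    · rw [hv1 x hx hx1]; ring
    · rw [hv1 y hy hy1]; ring
    · rw [hv2 b hb hb1]; linear_combination e2 * pm_sq σb
    · rw [hv3 c hc hc1]; linear_combination e3 * pm_sq σc
  · intro e0 e1 e2 e3 h0 h1 h2 h3
    obtain ⟨v, hv, hvs, hv1, hv2, hv3⟩ := frame_get hψ hj12 hj13 hj23 e0 (ρ a * e1) (ρ b * e2)
      (ρ c * e3) h0 (pm_hf ρa h1) (pm_hf ρb h2) (pm_hf ρc h3)
    refine ⟨v, hv, hvs, ?_, ?_, ?_, ?_, ?_⟩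
    · rw [hv1 a ha ha2]; linear_combination e1 * pm_sq ρa
    · rw [hv2 b hb hb2]; linear_combination e2 * pm_sq ρb
    · rw [hv2 x hx hx2]; ring
    · rw [hv3 c hc hc2]; linear_combination e3 * pm_sq ρc
    · rw [hv3 y hy hy2]; ring

theorem path_false (h3 : S_PATH) (hU : TS U) (hφ : Frame U s P φ σ) (hψ : Frame U s P ψ ρ)
    {i1 i2 i3 j1 j2 j3 : Fin 3} (hi12 : i1 ≠ i2) (hi13 : i1 ≠ i3) (hi23 : i2 ≠ i3)
    (hj12 : j1 ≠ j2) (hj13 : j1 ≠ j3) (hj23 : j2 ≠ j3) {a x b y c : ι}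
    (ha : a ∈ P) (hx : x ∈ P) (hb : b ∈ P) (hy : y ∈ P) (hc : c ∈ P)
    (ha1 : φ a = i1) (ha2 : ψ a = j1) (hx1 : φ x = i1) (hx2 : ψ x = j2)
    (hb1 : φ b = i2) (hb2 : ψ b = j2) (hy1 : φ y = i2) (hy2 : ψ y = j3)
    (hc1 : φ c = i3) (hc2 : ψ c = j3) : False := by
  have σa := hφ.1 a ha
  have σx := hφ.1 x hx
  have σy := hφ.1 y hy
  have σb := hφ.1 b hb
  have σc := hφ.1 c hc
  have ρa := hψ.1 a ha
  have ρx := hψ.1 x hx
  have ρy := hψ.1 y hy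
  have ρb := hψ.1 b hb
  have ρc := hψ.1 c hc
  refine h3 ι U s a x y b c (σ x * σ a) (σ y * σ b) (ρ x * ρ b) (ρ y * ρ c) hU
    (pm_mul σx σa) (pm_mul σy σb) (pm_mul ρx ρb) (pm_mul ρy ρc) ?_ ?_
  · intro e0 e1 e2 e3 h0 h1 h2 h3
    obtain ⟨v, hv, hvs, hv1, hv2, hv3⟩ := frame_get hφ hi12 hi13 hi23 e0 (σ a * e1) (σ b * e2)
      (σ c * e3) h0 (pm_hf σa h1) (pm_hf σb h2) (pm_hf σc h3)
    refine ⟨v, hv, hvs, ?_, ?_, ?_, ?_, ?_⟩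
    · rw [hv1 a ha ha1]; linear_combination e1 * pm_sq σa
    · rw [hv1 x hx hx1]; ring
    · rw [hv2 b hb hb1]; linear_combination e2 * pm_sq σb
    · rw [hv2 y hy hy1]; ring
    · rw [hv3 c hc hc1]; linear_combination e3 * pm_sq σc
  · intro e0 e1 e2 e3 h0 h1 h2 h3
    obtain ⟨v, hv, hvs, hv1, hv2, hv3⟩ := frame_get hψ hj12 hj13 hj23 e0 (ρ a * e1) (ρ b * e2)
      (ρ c * e3) h0 (pm_hf ρa h1) (pm_hf ρb h2) (pm_hf ρc h3)
    refine ⟨v, hv, hvs, ?_, ?_, ?_, ?_, ?_⟩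
    · rw [hv1 a ha ha2]; linear_combination e1 * pm_sq ρa
    · rw [hv2 b hb hb2]; linear_combination e2 * pm_sq ρb
    · rw [hv2 x hx hx2]; ring
    · rw [hv3 c hc hc2]; linear_combination e3 * pm_sq ρc
    · rw [hv3 y hy hy2]; ring

theorem sign_false (h1 : S_APD) (hU : TS U) (hφ : Frame U s P φ σ) (hψ : Frame U s P ψ ρ)
    {a b : Fin 3} (hab : ∀ p ∈ P, φ p = a ↔ ψ p = b) {p p' : ι} (hp : p ∈ P) (hp' : p' ∈ P)
    (hpa : φ p = a) (hpa' : φ p' = a) (hne : σ p' * σ p = -(ρ p' * ρ p)) : False := by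
  have hex : ∀ x : Fin 3, ∃ a1 a2 : Fin 3, a1 ≠ a2 ∧ a1 ≠ x ∧ a2 ≠ x := by decide
  obtain ⟨a1, a2, h01, h02, h12⟩ := hex a
  obtain ⟨b1, b2, k01, k02, k12⟩ := hex b
  have hcov : ∀ x y z w : Fin 3, x ≠ y → x ≠ z → y ≠ z → w ≠ z → w = x ∨ w = y := by decide
  obtain ⟨q, hq, hq1⟩ := hφ.2.1 a1
  obtain ⟨r, hr, hr1⟩ := hφ.2.1 a2
  have σp := hφ.1 p hp
  have σq := hφ.1 q hq
  have σr := hφ.1 r hr
  have σp' := hφ.1 p' hp'
  have ρp := hψ.1 p hp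
  have ρq := hψ.1 q hq
  have ρr := hψ.1 r hr
  have ρp' := hψ.1 p' hp'
  have hq2 : ψ q ≠ b := fun h => h02 (by rw [← hq1]; exact (hab q hq).2 h)
  have hr2 : ψ r ≠ b := fun h => h12 (by rw [← hr1]; exact (hab r hr).2 h)
  have hpb : ψ p = b := (hab p hp).1 hpa
  have hpb' : ψ p' = b := (hab p' hp').1 hpa'
  obtain ⟨z, hz, hzs, hz1, hz2, hz3⟩ := frame_get hψ k01 k02 k12 (1 / 2) (1 / 2)
    (1 / 2) (ρ p * (1 / 2)) hf_half hf_half hf_half (pm_hf ρp hf_half)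
  obtain ⟨z', hz', hzs', hz1', hz2', hz3'⟩ := frame_get hψ k01 k02 k12 (-(1 / 2)) (-(1 / 2))
    (-(1 / 2)) (ρ p * (1 / 2)) (hf_neg hf_half) (hf_neg hf_half) (hf_neg hf_half)
    (pm_hf ρp hf_half)
  have hzz : ∀ w ∈ P, ψ w ≠ b → hf (z w) ∧ z' w = -(z w) := by
    intro w hw hwb
    have ρw := hψ.1 w hw
    rcases hcov _ _ _ (ψ w) k01 k02 k12 hwb with h | h
    · refine ⟨?_, ?_⟩
      · rw [hz1 w hw h]; exact pm_hf ρw hf_half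
      · rw [hz1 w hw h, hz1' w hw h]; ring
    · refine ⟨?_, ?_⟩
      · rw [hz2 w hw h]; exact pm_hf ρw hf_half
      · rw [hz2 w hw h, hz2' w hw h]; ring
  have ep : z p = 1 / 2 := by
    rw [hz3 p hp hpb]; linear_combination (1 / 2) * pm_sq ρp
  have ep' : z' p = 1 / 2 := by
    rw [hz3' p hp hpb]; linear_combination (1 / 2) * pm_sq ρp
  refine h1 ι U s q r p p' (σ p' * σ p) z z' hU (pm_mul σp' σp) ?_ hz hz' ?_ ?_ ?_ ?_ ?_ ?_ ?_ ?_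
    ?_ ?_
  · intro x0 x1 x2 x3 hx0 hx1 hx2 hx3
    obtain ⟨v, hv, hvs, hv1, hv2, hv3⟩ := frame_get hφ h01 h02 h12 x0 (σ q * x1) (σ r * x2)
      (σ p * x3) hx0 (pm_hf σq hx1) (pm_hf σr hx2) (pm_hf σp hx3)
    refine ⟨v, hv, hvs, ?_, ?_, ?_, ?_⟩
    · rw [hv1 q hq hq1]; linear_combination x1 * pm_sq σq
    · rw [hv2 r hr hr1]; linear_combination x2 * pm_sq σr
    · rw [hv3 p hp hpa]; linear_combination x3 * pm_sq σp
    · rw [hv3 p' hp' hpa']; ring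
  · rw [hzs]; exact hf_half
  · exact (hzz q hq hq2).1
  · exact (hzz r hr hr2).1
  · rw [ep]; exact hf_half
  · rw [hzs, hzs']
  · exact (hzz q hq hq2).2
  · exact (hzz r hr hr2).2
  · rw [ep, ep']
  · rw [hz3 p' hp' hpb', ep]; linear_combination (1 / 2) * hne
  · rw [hz3' p' hp' hpb', ep]; linear_combination (1 / 2) * hne

end

theorem main (h1 : S_APD) (h2 : S_FORK) (h3 : S_PATH) : S_CP := by
  intro ι U s P φ ψ σ ρ hU hφ hψ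
  let N : Fin 3 → Fin 3 → Bool := fun i j => decide (∃ p ∈ P, φ p = i ∧ ψ p = j)
  have hN : ∀ i j, N i j = true ↔ ∃ p ∈ P, φ p = i ∧ ψ p = j := by
    intro i j
    simp only [N, decide_eq_true_eq]
  have hr : ∀ i, ∃ j, N i j = true := by
    intro i
    obtain ⟨p, hp, hpi⟩ := hφ.2.1 i
    exact ⟨ψ p, (hN _ _).2 ⟨p, hp, hpi, rfl⟩⟩
  have hc : ∀ j, ∃ i, N i j = true := by
    intro j
    obtain ⟨p, hp, hpj⟩ := hψ.2.1 j
    exact ⟨φ p, (hN _ _).2 ⟨p, hp, rfl, hpj⟩⟩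
  have hcfg : ∀ i ∈ T3, ∀ j ∈ T3, cfg N i j = false := by
    intro i hi j hj
    obtain ⟨hi12, hi13, hi23⟩ := T3_spec i hi
    obtain ⟨hj12, hj13, hj23⟩ := T3_spec j hj
    rw [← Bool.not_eq_true]
    intro hcon
    unfold cfg at hcon
    simp only [Bool.or_eq_true, Bool.and_eq_true, hN] at hcon
    rcases hcon with ⟨⟨p, hp, hp1, hp2⟩, ⟨q, hq, hq1, hq2⟩, ⟨r, hr, hr1, hr2⟩,
      ⟨u, hu, hu1, hu2⟩⟩ | ⟨⟨p, hp, hp1, hp2⟩, ⟨q, hq, hq1, hq2⟩, ⟨r, hr, hr1, hr2⟩,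
      ⟨u, hu, hu1, hu2⟩, ⟨w, hw, hw1, hw2⟩⟩ | ⟨⟨p, hp, hp1, hp2⟩, ⟨q, hq, hq1, hq2⟩,
      ⟨r, hr, hr1, hr2⟩, ⟨u, hu, hu1, hu2⟩, ⟨w, hw, hw1, hw2⟩⟩ | ⟨⟨p, hp, hp1, hp2⟩,
      ⟨q, hq, hq1, hq2⟩, ⟨r, hr, hr1, hr2⟩, ⟨u, hu, hu1, hu2⟩, ⟨w, hw, hw1, hw2⟩⟩
    · exact k_false h1 hU hφ hψ hi12 hi13 hi23 hj12 hj13 hj23 hp hq hr hu hp1 hp2 hq1 hq2
        hr1 hr2 hu1 hu2
    · exact fork_false h2 hU hφ hψ hi12 hi13 hi23 hj12 hj13 hj23 hp hq hr hu hw hp1 hp2 hq1 hq2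
        hr1 hr2 hu1 hu2 hw1 hw2
    · exact fork_false h2 hU hψ hφ hi12 hi13 hi23 hj12 hj13 hj23 hp hq hr hu hw hp2 hp1 hq2 hq1
        hr2 hr1 hu2 hu1 hw2 hw1
    · exact path_false h3 hU hφ hψ hi12 hi13 hi23 hj12 hj13 hj23 hp hq hr hu hw hp1 hp2 hq1 hq2
        hr1 hr2 hu1 hu2 hw1 hw2
  obtain ⟨a, b, hab, hrow, hcol⟩ := comb N hr hc hcfg
  have hiff : ∀ p ∈ P, φ p = a ↔ ψ p = b := by
    intro p hp
    constructor
    · intro h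
      by_contra hne
      have h' := hrow (ψ p) hne
      rw [← Bool.not_eq_true] at h'
      exact h' ((hN _ _).2 ⟨p, hp, h, rfl⟩)
    · intro h
      by_contra hne
      have h' := hcol (φ p) hne
      rw [← Bool.not_eq_true] at h'
      exact h' ((hN _ _).2 ⟨p, hp, rfl, h⟩)
  obtain ⟨p0, hp0, hp0a, hp0b⟩ := (hN _ _).1 hab
  refine ⟨a, b, hiff, σ p0 * ρ p0, pm_mul (hφ.1 p0 hp0) (hψ.1 p0 hp0), ?_⟩
  intro p hp hpa
  by_contra hne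
  have σ0 := hφ.1 p0 hp0
  have ρ0 := hψ.1 p0 hp0
  have σp := hφ.1 p hp
  have ρp := hψ.1 p hp
  refine sign_false h1 hU hφ hψ hiff hp0 hp hp0a hpa ?_
  rcases σ0 with h0 | h0 <;> rcases ρ0 with h0' | h0' <;> rcases σp with h4 | h4 <;>
    rcases ρp with h5 | h5 <;>
    first
    | (exfalso; apply hne; rw [h0, h0', h4, h5]; norm_num; done)
    | (rw [h0, h0', h4, h5]; norm_num; done)
    | (rw [h0, h0', h4, h5]; done)

end Pool.Agent.W912.SH.CP
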